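import Pool.Agent.W175.GF.Stm

/-!
# GF-CARL: a Carlson type uniqueness lemma (`S_CARL`)
-/

set_option autoImplicit false

namespace Pool.Agent.W333.GF

open Complex Filter Bornology Asymptotics Set
open scoped Topology

theorem carl : Pool.Agent.W175.GF.S_CARL := by
  intro f C c c' hcc hdf hcf hgr him1 him2
  have hC0 : 0 ≤ C := by
    have := hgr 0 (by simp)
    simp at this
    exact (norm_nonneg _).trans this
  set s : ℝ := (c + c') / 2 with hs
  set d : ℝ := (c - c') / 2 with hd
  have hd0 : 0 < d := by rw [hd]; linarith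
  set κ : ℝ := 2 * d / Real.pi with hκ
  have hπ := Real.pi_pos
  have hκ0 : 0 < κ := by rw [hκ]; positivity
  have hκπ : κ * (Real.pi / 2) = d := by rw [hκ]; field_simp
  set g : ℂ → ℂ := fun z => f z * exp (-(I * s * z)) * exp (-(κ * ((z + 1) * log (z + 1)))) with hg
  have hslit : ∀ z : ℂ, 0 ≤ z.re → z + 1 ∈ slitPlane := by
    intro z hz
    left
    simp
    linarith
  -- norm of g
  have hnorm : ∀ z : ℂ, ‖g z‖ = ‖f z‖ * Real.exp (s * z.im) *
      Real.exp (-(κ * ((z + 1) * log (z + 1)).re)) := by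
    intro z
    simp only [hg, norm_mul, norm_exp]
    congr 2
    · congr 1
      simp
    · rw [neg_re, re_ofReal_mul]
  have hreform : ∀ z : ℂ, ((z + 1) * log (z + 1)).re
      = (z.re + 1) * Real.log ‖z + 1‖ - z.im * (arg (z + 1)) := by
    intro z
    rw [mul_re, log_re, log_im]
    simp
  have hkey : EqOn g 0 {z : ℂ | 0 ≤ z.re} := by
    refine PhragmenLindelof.eq_zero_on_right_half_plane_of_superexponential_decay ?_ ?_ ?_ ?_
    · -- differentiability
      have hcl : closure {z : ℂ | 0 < z.re} = {z : ℂ | 0 ≤ z.re} := closure_setOfPred_lt_re 0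
      refine ⟨?_, ?_⟩
      · intro z hz
        have h1 : DifferentiableWithinAt ℂ f {z | 0 < z.re} z := hdf z hz
        have h2 : DifferentiableAt ℂ (fun z : ℂ => log (z + 1)) z :=
          (differentiableAt_id.add_const 1).clog (hslit z (le_of_lt hz))
        have h3 : DifferentiableAt ℂ (fun z : ℂ => exp (-(κ * ((z + 1) * log (z + 1))))) z :=
          ((((differentiableAt_id.add_const 1).mul h2).const_mul (κ : ℂ)).neg).cexp
        have h4 : DifferentiableAt ℂ (fun z : ℂ => exp (-(I * s * z))) z := by fun_prop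
        exact (h1.mul h4.differentiableWithinAt).mul h3.differentiableWithinAt
      · rw [hcl]
        have h2 : ContinuousOn (fun z : ℂ => log (z + 1)) {z | 0 ≤ z.re} :=
          ContinuousOn.clog (by fun_prop) (fun z hz => hslit z hz)
        have h3 : ContinuousOn (fun z : ℂ => exp (-(κ * ((z + 1) * log (z + 1))))) {z | 0 ≤ z.re} :=
          ((continuousOn_const.mul ((by fun_prop : ContinuousOn (fun z : ℂ => z + 1) _).mul h2)).neg).cexp
        have h4 : ContinuousOn (fun z : ℂ => exp (-(I * s * z))) {z | 0 ≤ z.re} := by fun_prop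
        exact (hcf.mul h4).mul h3
    · -- growth
      refine ⟨3 / 2, by norm_num, (C + |s|) + κ * (2 * (4 + Real.pi)), ?_⟩
      refine IsBigO.of_bound C ?_
      have hlarge : ∀ᶠ z : ℂ in cobounded ℂ ⊓ 𝓟 {z | 0 < z.re}, 1 ≤ ‖z‖ :=
        (tendsto_norm_cobounded_atTop.eventually_ge_atTop 1).filter_mono inf_le_left
      have hpos : ∀ᶠ z : ℂ in cobounded ℂ ⊓ 𝓟 {z | 0 < z.re}, 0 < z.re :=
        (eventually_principal.2 (fun z hz => hz)).filter_mono inf_le_right
      filter_upwards [hlarge, hpos] with z hz1 hz0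
      rw [hnorm, Real.norm_of_nonneg (Real.exp_pos _).le]
      have hr0 : 0 ≤ ‖z‖ := norm_nonneg z
      have h1 : ‖f z‖ ≤ C * Real.exp (C * ‖z‖) := hgr z hz0.le
      have h2 : s * z.im ≤ |s| * ‖z‖ := by
        calc s * z.im ≤ |s * z.im| := le_abs_self _
          _ = |s| * |z.im| := abs_mul _ _
          _ ≤ |s| * ‖z‖ := mul_le_mul_of_nonneg_left (abs_im_le_norm z) (abs_nonneg _)
      have hz1' : ‖z + 1‖ ≤ 2 * ‖z‖ := by
        calc ‖z + 1‖ ≤ ‖z‖ + ‖(1 : ℂ)‖ := norm_add_le _ _
          _ ≤ 2 * ‖z‖ := by rw [norm_one]; linarith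
      have hz2 : 1 ≤ ‖z + 1‖ := by
        have : (z + 1).re ≤ ‖z + 1‖ := re_le_norm _
        simp at this
        linarith
      have hlog : ‖log (z + 1)‖ ≤ (4 + Real.pi) * ‖z‖ ^ (1 / 2 : ℝ) := by
        have h5 : ‖log (z + 1)‖ ≤ Real.log ‖z + 1‖ + Real.pi := by
          have e : log (z + 1) = (Real.log ‖z + 1‖ : ℂ) + (arg (z + 1) : ℂ) * I := rfl
          rw [e]
          refine (norm_add_le _ _).trans ?_
          rw [norm_mul, norm_I, mul_one, norm_real, norm_real]
          refine add_le_add ?_ (abs_arg_le_pi _)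
          rw [Real.norm_of_nonneg (Real.log_nonneg hz2)]
        have h6 : Real.log ‖z + 1‖ ≤ 4 * ‖z‖ ^ (1 / 2 : ℝ) := by
          have h7 : Real.log ‖z + 1‖ ≤ ‖z + 1‖ ^ (1 / 2 : ℝ) / (1 / 2) :=
            Real.log_le_rpow_div (by positivity) (by norm_num)
          have h8 : ‖z + 1‖ ^ (1 / 2 : ℝ) ≤ (2 * ‖z‖) ^ (1 / 2 : ℝ) :=
            Real.rpow_le_rpow (norm_nonneg _) hz1' (by norm_num)
          rw [Real.mul_rpow (by norm_num) hr0] at h8
          have h9 : (2 : ℝ) ^ (1 / 2 : ℝ) ≤ 2 := by
            calc (2 : ℝ) ^ (1 / 2 : ℝ) ≤ (2 : ℝ) ^ (1 : ℝ) :=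
                  Real.rpow_le_rpow_of_exponent_le (by norm_num) (by norm_num)
              _ = 2 := Real.rpow_one 2
          have h10 : 0 ≤ ‖z‖ ^ (1 / 2 : ℝ) := Real.rpow_nonneg hr0 _
          nlinarith
        have h11 : 1 ≤ ‖z‖ ^ (1 / 2 : ℝ) := Real.one_le_rpow hz1 (by norm_num)
        nlinarith
      have h3 : -(κ * ((z + 1) * log (z + 1)).re)
          ≤ κ * (2 * (4 + Real.pi)) * (‖z‖ * ‖z‖ ^ (1 / 2 : ℝ)) := by
        have h5 : -((z + 1) * log (z + 1)).re ≤ ‖(z + 1) * log (z + 1)‖ :=
          (neg_le_abs _).trans (abs_re_le_norm _)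
        rw [norm_mul] at h5
        have h6 : ‖z + 1‖ * ‖log (z + 1)‖ ≤ (2 * ‖z‖) * ((4 + Real.pi) * ‖z‖ ^ (1 / 2 : ℝ)) :=
          mul_le_mul hz1' hlog (norm_nonneg _) (by positivity)
        calc -(κ * ((z + 1) * log (z + 1)).re) = κ * (-((z + 1) * log (z + 1)).re) := by ring
          _ ≤ κ * ((2 * ‖z‖) * ((4 + Real.pi) * ‖z‖ ^ (1 / 2 : ℝ))) :=
            mul_le_mul_of_nonneg_left (h5.trans h6) hκ0.le
          _ = _ := by ring
      have h32 : ‖z‖ ^ (3 / 2 : ℝ) = ‖z‖ * ‖z‖ ^ (1 / 2 : ℝ) := by
        have hzp : 0 < ‖z‖ := by linarith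
        calc ‖z‖ ^ (3 / 2 : ℝ) = ‖z‖ ^ (1 + 1 / 2 : ℝ) := by norm_num
          _ = ‖z‖ ^ (1 : ℝ) * ‖z‖ ^ (1 / 2 : ℝ) := Real.rpow_add hzp _ _
          _ = _ := by rw [Real.rpow_one]
      have h12 : ‖z‖ ≤ ‖z‖ * ‖z‖ ^ (1 / 2 : ℝ) :=
        le_mul_of_one_le_right hr0 (Real.one_le_rpow hz1 (by norm_num))
      calc ‖f z‖ * Real.exp (s * z.im) * Real.exp (-(κ * ((z + 1) * log (z + 1)).re))
          ≤ (C * Real.exp (C * ‖z‖)) * Real.exp (|s| * ‖z‖) *
              Real.exp (κ * (2 * (4 + Real.pi)) * (‖z‖ * ‖z‖ ^ (1 / 2 : ℝ))) := by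
            gcongr
        _ = C * Real.exp ((C + |s|) * ‖z‖ + κ * (2 * (4 + Real.pi)) *
              (‖z‖ * ‖z‖ ^ (1 / 2 : ℝ))) := by
            rw [mul_assoc, mul_assoc, ← Real.exp_add, ← Real.exp_add]
            congr 2
            ring
        _ ≤ C * Real.exp (((C + |s|) + κ * (2 * (4 + Real.pi))) * ‖z‖ ^ (3 / 2 : ℝ)) := by
            apply mul_le_mul_of_nonneg_left _ hC0
            apply Real.exp_le_exp.2
            rw [h32, add_mul]
            have : (C + |s|) * ‖z‖ ≤ (C + |s|) * (‖z‖ * ‖z‖ ^ (1 / 2 : ℝ)) :=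
              mul_le_mul_of_nonneg_left h12 (by positivity)
            linarith
    · -- decay on the real axis
      intro n
      have hb : ∀ᶠ x : ℝ in atTop, Real.exp x ^ n * ‖g x‖ ≤ C * Real.exp (-x) := by
        have hlt : Tendsto (fun x : ℝ => Real.log (x + 1)) atTop atTop :=
          Real.tendsto_log_atTop.comp (tendsto_atTop_add_const_right _ _ tendsto_id)
        filter_upwards [hlt.eventually_ge_atTop ((n + C + 1) / κ), eventually_ge_atTop 0]
          with x hx hx0
        have h1 : ‖f x‖ ≤ C * Real.exp (C * x) := by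
          have := hgr x (by simpa using hx0)
          rwa [norm_real, Real.norm_of_nonneg hx0] at this
        have h2 : (((x : ℂ) + 1) * log ((x : ℂ) + 1)).re = (x + 1) * Real.log (x + 1) := by
          have : ((x : ℂ) + 1) = ((x + 1 : ℝ) : ℂ) := by push_cast; rfl
          rw [this, ← ofReal_log (by linarith), ← ofReal_mul, ofReal_re]
        rw [hnorm, h2]
        simp only [ofReal_im, mul_zero, Real.exp_zero, mul_one]
        rw [div_le_iff₀ hκ0] at hx
        have h3 : (n + C + 1) * (x + 1) ≤ κ * ((x + 1) * Real.log (x + 1)) := by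
          have : (n + C + 1) * (x + 1) ≤ (Real.log (x + 1) * κ) * (x + 1) :=
            mul_le_mul_of_nonneg_right hx (by linarith)
          linarith
        have hn0 : (0 : ℝ) ≤ n := Nat.cast_nonneg n
        calc Real.exp x ^ n * (‖f x‖ * Real.exp (-(κ * ((x + 1) * Real.log (x + 1)))))
            ≤ Real.exp x ^ n * ((C * Real.exp (C * x)) *
                Real.exp (-((n + C + 1) * (x + 1)))) := by
              gcongr
          _ = C * Real.exp (n * x + C * x + -((n + C + 1) * (x + 1))) := by
              rw [Real.exp_add, Real.exp_add, ← Real.exp_nat_mul]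
              ring
          _ ≤ C * Real.exp (-x) := by
              apply mul_le_mul_of_nonneg_left _ hC0
              apply Real.exp_le_exp.2
              nlinarith
      have hlim : Tendsto (fun x : ℝ => C * Real.exp (-x)) atTop (𝓝 0) := by
        have := (Real.tendsto_exp_neg_atTop_nhds_zero).const_mul C
        simpa using this
      refine squeeze_zero' (Eventually.of_forall fun x => by positivity) ?_ hlim
      filter_upwards [hb] with x hx
      simpa using hx
    · -- imaginary axis
      refine ⟨C, fun y => ?_⟩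
      have h1 : ‖f (y * I)‖ * Real.exp (s * y) ≤ C * Real.exp (-(d * |y|)) := by
        rcases le_total 0 y with hy | hy
        · have := him1 y hy
          calc ‖f (y * I)‖ * Real.exp (s * y) ≤ C * Real.exp (-(c * y)) * Real.exp (s * y) := by
                gcongr
            _ = C * Real.exp (-(d * |y|)) := by
                rw [mul_assoc, ← Real.exp_add, abs_of_nonneg hy]
                congr 2
                rw [hs, hd]
                ring
        · have := him2 (-y) (by linarith)
          have e : -(((-y : ℝ) : ℂ) * I) = (y : ℂ) * I := by push_cast; ring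
          rw [e] at this
          calc ‖f (y * I)‖ * Real.exp (s * y) ≤ C * Real.exp (c' * (-y)) * Real.exp (s * y) := by
                gcongr
            _ = C * Real.exp (-(d * |y|)) := by
                rw [mul_assoc, ← Real.exp_add, abs_of_nonpos hy]
                congr 2
                rw [hs, hd]
                ring
      have h2 : Real.exp (-(κ * ((y * I + 1) * log (y * I + 1)).re)) ≤ Real.exp (d * |y|) := by
        apply Real.exp_le_exp.2
        rw [hreform]
        simp only [mul_re, ofReal_re, I_re, mul_zero, ofReal_im, I_im, mul_one, sub_self,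
          zero_add, one_mul, mul_im, add_zero]
        have h3 : 0 ≤ Real.log ‖(y : ℂ) * I + 1‖ := by
          apply Real.log_nonneg
          have := re_le_norm ((y : ℂ) * I + 1)
          simpa using this
        have h4 : |arg ((y : ℂ) * I + 1)| ≤ Real.pi / 2 := by
          rw [abs_arg_le_pi_div_two_iff]
          simp
        have h5 : y * arg ((y : ℂ) * I + 1) ≤ |y| * (Real.pi / 2) := by
          calc y * arg ((y : ℂ) * I + 1) ≤ |y * arg ((y : ℂ) * I + 1)| := le_abs_self _
            _ = |y| * |arg ((y : ℂ) * I + 1)| := abs_mul _ _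
            _ ≤ _ := mul_le_mul_of_nonneg_left h4 (abs_nonneg _)
        have h6 : κ * (y * arg ((y : ℂ) * I + 1)) ≤ κ * (|y| * (Real.pi / 2)) :=
          mul_le_mul_of_nonneg_left h5 hκ0.le
        have h7 : κ * (|y| * (Real.pi / 2)) = d * |y| := by rw [← hκπ]; ring
        have h8 : 0 ≤ κ * Real.log ‖(y : ℂ) * I + 1‖ := mul_nonneg hκ0.le h3
        nlinarith
      rw [hnorm]
      have him : ((y : ℂ) * I).im = y := by simp
      rw [him]
      calc ‖f (y * I)‖ * Real.exp (s * y) * Real.exp (-(κ * ((y * I + 1) * log (y * I + 1)).re))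
          ≤ (C * Real.exp (-(d * |y|))) * Real.exp (d * |y|) :=
            mul_le_mul h1 h2 (Real.exp_pos _).le (by positivity)
        _ = C := by
            rw [mul_assoc, ← Real.exp_add]
            simp
  intro z hz
  have := hkey hz
  simp only [hg, Pi.zero_apply, mul_eq_zero, exp_ne_zero, or_false] at this
  exact this

end Pool.Agent.W333.GF
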