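import Mathlib
import Pool.Agent.W559.GF.Stm

/-! Homogeneous relations from relations in a chart. -/

set_option autoImplicit false

namespace Pool.Agent.W333.GF

open MvPolynomial

/-- values at multiples of a vector -/
theorem hom_scale {K L : Type} [Field K] [Field L] [Algebra K L] {σ : Type} [Fintype σ] {e : ℕ}
    {G : MvPolynomial σ K} (hG : G.IsHomogeneous e) (c : L) (y : σ → L) :
    aeval (fun j => c * y j) G = c ^ e * aeval y G := by
  rw [aeval_def, aeval_def, eval₂_eq', eval₂_eq', Finset.mul_sum]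
  refine Finset.sum_congr rfl fun d hd => ?_
  have h1 := hG (mem_support_iff.1 hd)
  rw [Finsupp.weight_apply, Finsupp.sum_fintype _ _ (by simp)] at h1
  simp only [Pi.one_apply, smul_eq_mul, mul_one] at h1
  simp only [mul_pow, Finset.prod_mul_distrib]
  rw [Finset.prod_pow_eq_pow_sum, h1]
  ring

theorem rel (K F : Type) [Field K] [Field F] [Algebra K F] (N d : ℕ)
  (Φ : MvPolynomial (Fin (N + 1)) K) (hΦ : Φ.IsHomogeneous d) (h0 : ¬ (MvPolynomial.X 0 ∣ Φ))
  (x : Fin (N + 1) → F) (hx0 : x 0 = 1)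
  (H : ∀ P : MvPolynomial (Fin N) K, MvPolynomial.aeval (fun i => x i.succ) P = 0 →
    MvPolynomial.aeval (Fin.cons 1 MvPolynomial.X : Fin (N + 1) → MvPolynomial (Fin N) K) Φ ∣ P)
  (e : ℕ) (G : MvPolynomial (Fin (N + 1)) K) (hG : G.IsHomogeneous e)
  (hx : MvPolynomial.aeval x G = 0) : Φ ∣ G := by
  set Q := FractionRing (MvPolynomial (Fin (N + 1)) K) with hQ
  set i := algebraMap (MvPolynomial (Fin (N + 1)) K) Q with hi
  have hinj : Function.Injective i := IsFractionRing.injective _ _
  set c : Q := i (X 0) with hc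
  have hc0 : c ≠ 0 := by
    rw [hc, Ne, map_eq_zero_iff i hinj]
    exact X_ne_zero 0
  have hcx : ∀ y : Q, c * (y / c) = y := fun y => by
    rw [← mul_div_assoc, mul_div_cancel_left₀ _ hc0]
  set θ : Fin (N + 1) → Q := fun j => i (X j) / c with hθ
  -- homogeneous polynomials
  have h1 : ∀ (e : ℕ) (G : MvPolynomial (Fin (N + 1)) K), G.IsHomogeneous e →
      i G = c ^ e * aeval (fun j : Fin N => θ j.succ)
        (aeval (Fin.cons 1 X : Fin (N + 1) → MvPolynomial (Fin N) K) G) := by
    intro e G hG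
    have h2 := hom_scale hG c θ
    have h3 : (fun j => c * θ j) = fun j => i (X j) := by
      ext j
      exact hcx _
    have h4 : aeval (fun j => i (X j)) G = i G := by
      have h5 : (aeval (fun j => i (X j)) : MvPolynomial (Fin (N + 1)) K →ₐ[K] Q) =
        IsScalarTower.toAlgHom K (MvPolynomial (Fin (N + 1)) K) Q := by
        apply algHom_ext
        intro j
        simp [hi]
      rw [h5]
      rfl
    rw [h3, h4] at h2
    rw [h2]
    congr 1
    have h6 : aeval θ = (aeval (fun j : Fin N => θ j.succ)).comp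
        (aeval (Fin.cons 1 X : Fin (N + 1) → MvPolynomial (Fin N) K)) := by
      apply algHom_ext
      intro j
      refine Fin.cases ?_ (fun j => ?_) j
      · simp [hθ, hc0, ← hc]
      · simp
    rw [h6]
    rfl
  -- denominators
  have h2 : ∀ h : MvPolynomial (Fin N) K, ∃ (k : ℕ) (H : MvPolynomial (Fin (N + 1)) K),
      c ^ k * aeval (fun j : Fin N => θ j.succ) h = i H := by
    intro h
    induction h using MvPolynomial.induction_on with
    | C a => exact ⟨0, C a, by
        simp [hi, IsScalarTower.algebraMap_apply K (MvPolynomial (Fin (N + 1)) K) Q,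
          algebraMap_eq]⟩
    | add p q hp hq =>
      obtain ⟨k1, H1, e1⟩ := hp
      obtain ⟨k2, H2, e2⟩ := hq
      refine ⟨k1 + k2, X 0 ^ k2 * H1 + X 0 ^ k1 * H2, ?_⟩
      rw [map_add, map_add, map_mul, map_mul, map_pow, map_pow, ← e1, ← e2, ← hc]
      ring
    | mul_X p j hp =>
      obtain ⟨k, H, e⟩ := hp
      refine ⟨k + 1, H * X j.succ, ?_⟩
      rw [map_mul, aeval_X, map_mul, ← e]
      have h3 := hcx (i (X j.succ))
      linear_combination (c ^ k * (aeval fun j : Fin N => θ j.succ) p) * h3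
  obtain ⟨h, hh⟩ := H (aeval (Fin.cons 1 X : Fin (N + 1) → MvPolynomial (Fin N) K) G) (by
    have h3 : (aeval (fun i : Fin N => x i.succ)).comp
        (aeval (Fin.cons 1 X : Fin (N + 1) → MvPolynomial (Fin N) K)) = aeval x := by
      apply algHom_ext
      intro j
      refine Fin.cases ?_ (fun j => ?_) j
      · simp [hx0]
      · simp
    have h4 := DFunLike.congr_fun h3 G
    rw [hx] at h4
    exact h4)
  obtain ⟨k, H', hk⟩ := h2 h
  have h3 := h1 e G hG
  have h4 := h1 d Φ hΦ
  rw [hh, map_mul] at h3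
  have h5 : X 0 ^ (k + d) * G = Φ * (X 0 ^ e * H') := by
    apply hinj
    rw [map_mul, map_mul, map_mul, map_pow, map_pow, ← hc, ← hk, h3, h4]
    ring
  have h6 : (X 0 : MvPolynomial (Fin (N + 1)) K) ^ (k + d) ∣ X 0 ^ e * H' :=
    (X_prime (R := K)).pow_dvd_of_dvd_mul_left (k + d) h0 ⟨G, h5.symm⟩
  obtain ⟨H'', h7⟩ := h6
  refine ⟨H'', ?_⟩
  have h8 : (X 0 : MvPolynomial (Fin (N + 1)) K) ^ (k + d) ≠ 0 := pow_ne_zero _ (X_ne_zero 0)
  apply mul_left_cancel₀ h8
  rw [h5, h7]
  ring

theorem main : Pool.Agent.W559.GF.RelStm := by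
  intro K F _ _ _ N d Φ hΦ h0 x hx0 H e G hG hx
  exact rel K F N d Φ hΦ h0 x hx0 H e G hG hx

end Pool.Agent.W333.GF
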